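import Pool.Agent.Y145.DP.Fin

/-!
# The order of vanishing at the central point for the Dwork pencil of Calabi-Yau hypersurfaces

The varieties are the hypersurfaces `x_1 ^ n + ... + x_n ^ n = n u ^ d x_1 ... x_n`, `n = 2 i + 1`,
over the rational function field `k(u)`. The definitions are in `Pool/Agent/Y145/DP/Defs.lean`.
-/

set_option autoImplicit false

namespace Pool.Agent.Results.MP_0b9e0b_ag.DworkPencil

open Polynomial Pool.Agent.Y145.DP

theorem result {k : Type} [Field k] [Finite k] (p : ℕ) [Fact p.Prime] [CharP k p] (i d ν : ℕ)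
    (hi : 0 < i) (hd : (2 * i + 1) * d ∣ p ^ ν + 1) (hk : 2 * i + 1 ∣ Nat.card k - 1) :
    ∃ L : ℂ[X], IsLPolynomial L (traceSum k i d) ∧
      meromorphicOrderAt (fun s : ℂ => L.eval ((Nat.card k : ℂ) ^ (-s))) i =
        (((((2 * i + 1) ^ (2 * i - 1) - (2 * i).factorial : ℤ) *
            Nat.card {P : k[X] // P.Monic ∧ Irreducible P ∧ P ∣ X ^ (d * (2 * i + 1)) - 1}) -
          ((2 * i + 1) ^ (2 * i) - (2 * i) ^ (2 * i) - 2 * i) : ℤ) : WithTop ℤ) :=
  main p i d ν hi hd hk

end Pool.Agent.Results.MP_0b9e0b_ag.DworkPencil
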