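import Pool.Agent.Y711.BB4

/-!
# Products of quadratic twists of curves: no zeros of the L-functions in odd degrees

Let `k` be a finite field with `q` elements, of characteristic at least five, let `m n` be a monic
squarefree polynomial in `k[t]`, and fix a class of polynomials with prescribed quadratic symbols at
the primes dividing `n`. For at least half of the monic squarefree `D` of degree `2 g + 1` in the class
which are divisible by `m`, `g` large, the following holds for ALL numbers `r` of factors, for ALL
hyperelliptic curves `y ^ 2 = f i (x)`, `i ≤ r`, over `k(t)` of ALL genera with unipotent Frobenius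
elements modulo three and good reduction outside `m`, for ALL Galois extensions `L` of `k(t)` of degree
a power of three in which no ramified place splits in `L(√D)`, and for ALL odd `w`: the L-function over
`L` of the cohomology of degree `w` of the product of the twisted curves `y ^ 2 = D f i (x)` does not
vanish at any integer `s = j`.
-/

set_option autoImplicit false

open Polynomial Pool.Agent.Y711

namespace Pool.Agent.Results.MP_0b9e0b_ag.ProductsOfTwists

theorem result (k : Type) [Field k] [Finite k] (h2 : (2 : k) ≠ 0) (h3 : (3 : k) ≠ 0)
    (m n a : k[X]) (hm : m.Monic) (hn : n.Monic) (hs : Squarefree (m * n)) (ha : IsCoprime n a)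
    (δ : ℝ) (hδ : δ < 1 / 2) :
    ∃ N : ℕ, ∀ g ≥ N, δ * (twistClass g m n a).ncard ≤
      {D : k[X] | D ∈ twistClass g m n a ∧ ∀ (r : ℕ) (γ : Fin r → ℕ) (f : Fin r → k[X][X]),
        (∀ i, IsUnipotent (γ i) (f i) m) →
        ∀ (L : Type) [Field L] [Algebra k[X] L] [Algebra (RatFunc k) L]
          [IsScalarTower k[X] (RatFunc k) L], IsThreeExtension D L →
            ∀ w : ℕ, Odd w → ∀ j : ℕ,
              ¬ ZeroAt k j (productL w f D (integralClosure k[X] L))}.ncard :=
  product_half h2 h3 hm hn hs ha hδ

end Pool.Agent.Results.MP_0b9e0b_ag.ProductsOfTwists
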