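import Pool.Agent.Y709.Ten.Flat

/-!
Products of `2 m - 1` superelliptic curves over the rational function field of a finite field and over
all its Galois extensions of degree a power of `p`: for almost all twists, the `L`-function of the
primitive parts of the cohomology in the middle degree `2 m - 1` does not vanish at `s = m`.
-/

set_option autoImplicit false

open Polynomial

namespace Pool.Agent.Results.MP_0b9e0b_ag.TwistedProducts

/-- The Euler product: its coefficient of index `n` is that of the product of the factors of degree
at most `n`. -/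
noncomputable def eulerProduct {ι : Type} (d : ι → ℕ) (f : ι → PowerSeries ℂ) : PowerSeries ℂ :=
  PowerSeries.mk fun n => PowerSeries.coeff n (∏ᶠ (i : ι) (_ : d i ≤ n), f i)

section points

variable {k : Type} [Field k] {O : Type} [CommRing O] [Algebra k[X] O]

/-- For an algebra `O` over `k[t]`, the algebra over `k` of the functions on a closed subscheme of
`Spec O[x_0, …]`. -/
noncomputable def quotientAlgebra {n : ℕ} (J : Ideal (MvPolynomial (Fin n) O)) :
    Algebra k (MvPolynomial (Fin n) O ⧸ J) :=
  ((Ideal.Quotient.mk J).comp
    (MvPolynomial.C.comp ((algebraMap k[X] O).comp (C : k →+* k[X])))).toAlgebra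

variable (k) in
/-- The degree over `k` of a closed subscheme `J` of `Spec O[x_0, …]`: for a closed point, the degree
over `k` of its residue field. -/
noncomputable def degree {n : ℕ} (J : Ideal (MvPolynomial (Fin n) O)) : ℕ :=
  @Module.finrank k (MvPolynomial (Fin n) O ⧸ J) _ _ (quotientAlgebra J).toModule

variable (k) in
/-- The norm to `k` of the value at `J` of an element of `O[x_0, …]`. -/
noncomputable def normAt {n : ℕ} (J : Ideal (MvPolynomial (Fin n) O))
    (g : MvPolynomial (Fin n) O) : k :=
  @Algebra.norm k (MvPolynomial (Fin n) O ⧸ J) _ _ (quotientAlgebra J) (Ideal.Quotient.mk J g)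

/-- A finite group `G` acts on the ring `O ⊇ k[t]` faithfully and with the ring of invariants `k[t]`, so
that `Spec O` is a Galois covering of the line with the group `G`, the group is a `p`-group, and the
covering is unramified at the points where `E(t)` is not zero: the inertia groups are trivial. -/
structure IsLayer (p : ℕ) (E : k[X]) (G O : Type) [Group G] [Finite G] [CommRing O]
    [Algebra k[X] O] [MulSemiringAction G O] : Prop where
  galois : IsGaloisGroup G k[X] O
  injective : Function.Injective (algebraMap k[X] O)
  pgroup : IsPGroup p G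
  unramified : ∀ 𝔪 : MaximalSpectrum O, algebraMap k[X] O E ∉ 𝔪.asIdeal →
    𝔪.asIdeal.inertia G = ⊥

end points

section defs

variable {k : Type} [Field k]

variable (k) in
/-- The data `β_{j,i}(t)`, `m_{j,i}` of `n` pencils of curves `y_j ^ (q - 1) = f_j(t, x_j)`,
`f_j = ∏_i (x_j - β_{j,i}(t)) ^ (m_{j,i})`, the `j`-th one with `r_j + 1` sections, and a polynomial
`B(t)`. -/
structure Family (n : ℕ) : Type where
  coef : k[X]
  rank : Fin n → ℕ
  root : ∀ j, Fin (rank j + 1) → k[X]
  mult : ∀ j, Fin (rank j + 1) → ℕ

/-- The degree `n_j` of `f_j` in `x_j`: the sum of the multiplicities. -/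
def Family.degX {n : ℕ} (S : Family k n) (j : Fin n) : ℕ := ∑ i, S.mult j i

/-- The collisions of the sections of the pencils with `j ≥ m`: the product of the
`(β_{j,l} - β_{j,i}) ^ (m_{j,i} + m_{j,l})` over `i < l`. -/
noncomputable def Family.collision {n : ℕ} (S : Family k n) (m : ℕ) : k[X] :=
  ∏ j : Fin n, if (j : ℕ) < m then 1 else
    ∏ i, ∏ l ∈ Finset.Ioi i, (S.root j l - S.root j i) ^ (S.mult j i + S.mult j l)

/-- The sections of each pencil are distinct of degree at most `d` in `t`, the multiplicities are
positive, and their sum `n_j` is less than `p` and than `q - 1`; `B` is not zero and is divisible by the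
square of the collisions of the pencils with `j ≥ m`. -/
structure Family.Good {n : ℕ} (S : Family k n) (p q m d : ℕ) : Prop where
  root_inj : ∀ j, Function.Injective (S.root j)
  root_deg : ∀ j i, (S.root j i).natDegree ≤ d
  mult_pos : ∀ j i, 0 < S.mult j i
  degX_char : ∀ j, S.degX j < p
  degX_lt : ∀ j, S.degX j < q - 1
  coef_ne : S.coef ≠ 0
  collision_dvd : S.collision m ^ 2 ∣ S.coef

variable (O : Type) [CommRing O] [Algebra k[X] O]

/-- The polynomial `f_j` in `O[x_0, …]`. -/
noncomputable def Family.poly {n : ℕ} (S : Family k n) (j : Fin n) : MvPolynomial (Fin n) O :=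
  ∏ i, (MvPolynomial.X j - MvPolynomial.C (algebraMap k[X] O (S.root j i))) ^ S.mult j i

/-- The weight of a closed point: `χ` of the norm of `D(t) B(t) ∏_{j < m} f_j`, times the inverse of `χ`
of the norm of `∏_{j ≥ m} f_j`; it is zero if one of these values is zero. -/
noncomputable def Family.weight {n : ℕ} (S : Family k n) (m : ℕ) (χ : MulChar k ℂ) (D : k[X])
    (J : Ideal (MvPolynomial (Fin n) O)) : ℂ :=
  χ (normAt k J (MvPolynomial.C (algebraMap k[X] O (D * S.coef)) *
      ∏ j : Fin n with j.val < m, S.poly O j)) *
    χ⁻¹ (normAt k J (∏ j : Fin n with ¬ j.val < m, S.poly O j))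

/-- The `L`-function in the variable `T = (#k) ^ (-s)` of the part of the cohomology of the product of
the curves `y_j ^ (q - 1) = f_j(t, x_j)`, the first one twisted by `D B`, over `Spec O`, on which the
roots of unity act by the character `χ` on the first `m` curves and by its inverse on the others: the
product of `1 - weight(z) T ^ (deg z)` over all closed points `z` of `Spec O[x_0, …]`. -/
noncomputable def Family.Lfun {n : ℕ} (S : Family k n) (m : ℕ) (χ : MulChar k ℂ) (D : k[X]) :
    PowerSeries ℂ :=
  eulerProduct (fun z : MaximalSpectrum (MvPolynomial (Fin n) O) => degree k z.asIdeal)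
    (fun z => 1 - PowerSeries.C (S.weight O m χ D z.asIdeal) *
      PowerSeries.X ^ degree k z.asIdeal)

/-- The power series `L` in `T` is the product of a polynomial and of `1 - Q ζ T` for a complex number
`ζ` with `ζ ^ e = 1`: it vanishes at a point with `(Q T) ^ e = 1`. -/
def Vanishes (Q e : ℕ) (L : PowerSeries ℂ) : Prop :=
  ∃ ζ : ℂ, ζ ^ e = 1 ∧ ∃ G : ℂ[X], L = (((1 - C ((Q : ℂ) * ζ) * X) * G : ℂ[X]) : PowerSeries ℂ)

variable (k) in
/-- The polynomials `D` of degree at most `N`. -/
def twists (N : ℕ) : Set k[X] := {D | D.natDegree ≤ N}

/-- The polynomials `D` of degree at most `N` such that over some Galois covering with a `p`-group,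
unramified outside of the zeros of `D B` (and `∞`), the `L`-function of one of the characters `χ` of
exact order `q - 1` vanishes at a point with `((#k) ^ m T) ^ e = 1`. -/
def Family.vanishingTwists {n : ℕ} (S : Family k n) (p q m e N : ℕ) : Set k[X] :=
  {D | D ∈ twists k N ∧ ∃ (G O : Type) (_ : Group G) (_ : Finite G) (_ : CommRing O)
    (_ : Algebra k[X] O) (_ : MulSemiringAction G O), IsLayer p (D * S.coef) G O ∧
      ∃ χ : MulChar k ℂ, orderOf χ = q - 1 ∧ Vanishes (Nat.card k ^ m) e (S.Lfun O m χ D)}

end defs

section conv

open Pool.Agent.Y709 Pool.Agent.Y709.Lay Pool.Agent.Y709.Ten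

theorem collision_eq {k : Type} [Field k] {n : ℕ} (S : Family k n) (m : ℕ) :
    S.collision m = coll (fun j => decide ((j : ℕ) < m)) S.root S.mult := by
  unfold Family.collision coll
  refine Finset.prod_congr rfl fun j _ => ?_
  by_cases hj : (j : ℕ) < m
  · rw [if_pos hj, if_pos (decide_eq_true hj)]
  · rw [if_neg hj, if_neg (by simpa using hj)]
    unfold Irr.prs
    rw [Finset.prod_filter, ← Finset.univ_product_univ, Finset.prod_product]
    refine Finset.prod_congr rfl fun i _ => ?_
    rw [← Finset.prod_filter]
    refine Finset.prod_congr ?_ fun _ _ => rfl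
    ext l
    simp

variable {k : Type} [Field k] [Finite k] {O : Type} [CommRing O] [Algebra k[X] O]
  (G : Type) [Group G] [Finite G] [MulSemiringAction G O] [IsGaloisGroup G k[X] O]

include G in
theorem Lfun_eq {n : ℕ} (S : Family k n) {q : ℕ} (m : ℕ) (χ : MulChar k ℂ)
    (hχ : orderOf χ = q - 1) (hm : ∀ j i, 0 < S.mult j i) (hmq : ∀ j i, S.mult j i < q - 1)
    (D : k[X]) :
    S.Lfun O m χ D =
      LN O q (fun j => decide ((j : ℕ) < m)) S.root S.mult χ (D * S.coef) :=
  flat_eq G m χ hχ (D * S.coef) S.root S.mult hm hmq

theorem numP_eq {m : ℕ} (hm : 0 < m) :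
    numP (fun j : Fin (2 * m - 1) => decide ((j : ℕ) < m)) = m := by
  unfold numP
  simp only [decide_eq_true_eq]
  rw [Finset.sum_boole, Nat.cast_id]
  have h1 : (Finset.univ.filter fun j : Fin (2 * m - 1) => (j : ℕ) < m).card =
      (Finset.range m).card := by
    refine Finset.card_bij (fun j _ => (j : ℕ)) ?_ ?_ ?_
    · intro j hj
      exact Finset.mem_range.2 (Finset.mem_filter.1 hj).2
    · intro i _ j _ h
      exact Fin.ext h
    · intro i hi
      rw [Finset.mem_range] at hi
      exact ⟨⟨i, by omega⟩, Finset.mem_filter.2 ⟨Finset.mem_univ _, hi⟩, rfl⟩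
  rw [h1, Finset.card_range]

end conv

/-- **The conjecture of Beilinson and Bloch for almost all twists of products of `2 m - 1` superelliptic
curves over the rational function field, over all layers of `p`-power degree.**

Let `q` be a power of the prime number `p`, let `k` be a finite extension of the field with `q` elements,
`K = k(t)`, and `m ≥ 1`. For `0 ≤ j < 2 m - 1` let `C_j` be the smooth projective curve over `K` with the
equation `y ^ (q - 1) = f_j = ∏_i (x - β_{j,i}(t)) ^ (m_{j,i})`, where the `r_j + 1` sections `β_{j,i}` in
`k[t]` are distinct and of degree at most `d`, and the sum `n_j` of the multiplicities `m_{j,i} ≥ 1` is less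
than `p` and less than `q - 1`. Let `B ≠ 0` be a polynomial that is divisible by the square of the
collisions `∏ (β_{j,l} - β_{j,i}) ^ (m_{j,i} + m_{j,l})` of the sections of the curves with `j ≥ m`
(no condition if these curves are constant). For a polynomial `D ≠ 0` let `X_D` be the product of the
curve `y ^ (q - 1) = D B f_0` and of `C_1, …, C_{2 m - 2}`, a smooth projective variety of dimension
`2 m - 1` over `K`. The group `μ` of the roots of unity of order `q - 1` acts on each of the curves. For a
character `χ` of exact order `q - 1` let `V = V_{D, χ}` be the part of the cohomology of `X_D` on which `μ`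
acts by `χ` on the first `m` curves and by its inverse on the others. Since `μ` acts trivially on the
cohomology of a curve in the degrees `0` and `2`, `V` is the part of `H ^ (2 m - 1)` that is the tensor
product of the parts of the groups `H ^ 1` of the curves; its rank is `R = ∏ r_j`, its Hodge numbers are
concentrated in one degree `(m, m - 1)` (or `(m - 1, m)`), and all cycles in the corresponding part of
`CH ^ m (X_D)` are homologically trivial.

Let `L` be a finite Galois extension of `K` of degree a power of `p`, with the group `G` and the integral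
closure `O` of `k[t]` in `L`, in which only zeros of `D B` and `∞` ramify (`L = K` and `O = k[t]`, the
extensions by constants, the Artin-Schreier extensions with poles at `∞` and at the zeros of `D B`, all
their towers, …). `Lfun` is the function of `V` over `L` up to a finite product of Euler factors of weight
at most `2 m - 1`, which have no zero or pole at `|T| = (#k) ^ (-m)`: above a zero of `D B` the factor in
`Lfun` is `1`, at the other points where sections meet it is the tensor product of the cohomology groups
with compact supports of Kummer sheaves on lines, which are pure of weight one (a sum of some of the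
`m_{j,i}` is not divisible by `q - 1`), and above `t = ∞` there is no factor. By Grothendieck, `Lfun` is a
polynomial in `T = (#k) ^ (-s)` if `D` has a zero of order not divisible by `q - 1` where the fibres are
smooth (so for all but a negligible number of the `D`), for then the local monodromy of `V` above it is
a nontrivial scalar (the ramification index in `L` is prime to `q - 1`).

The theorem: let `f + deg Δ ≥ deg B + d (∑_{j < m} n_j + ∑_{j ≥ m} (r_j - 1) n_j)`, `Δ` the collisions,
with `R f + 3 R ^ 2 + 6 R + 8 ≤ q`, let `e` divide `q - 1`, and let `N` be a degree with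
`N + 1 = (q - 1) M + ρ`, where `M ≥ 4 R ^ 2 + 8` and `R < ρ ≤ q - 1 - f`. For a proportion of at least
`1 - 2 R e / q` of the `(#k) ^ (N + 1)` polynomials `D` of degree at most `N`, the functions of all `χ` do
not vanish at the points with `((#k) ^ m T) ^ e = 1`, over none of the extensions `L`, whatever their
degrees are. So for these `D`, with `q` fixed, the order of `L(V, s)` at `s = m` is zero over all `L` and
over their extensions by constants of degree `e`: this is the analytic side of the conjecture of Beilinson
and Bloch, which predicts that the part `CH ^ m (X_D / L)_V` of the Chow group with rational coefficients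
is zero. It follows that the `ℓ`-adic Abel-Jacobi map is zero on this part, since
`H ^ 1 (C_L ⊗ k̄, j_* V(m))` has no invariants of Frobenius.

If the curves are isotrivial, `β_{j,i} = a_{j,i} γ_j + δ_j` with constants `a_{j,i}` and polynomials `γ_j`,
`δ_j`, then the conjecture is true for these parts over all `L`: both sides are zero. Indeed over the
extension `L'` of `L` by a root of order `q - 1` of `D B ∏_{j < m} γ_j ^ (n_j) ∏_{j ≥ m} γ_j ^ (- n_j)` the
curves become constant curves `C_j'`, and `CH ^ m (X_D / L)_V` is a quotient of the Chow group of the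
motive `M`, the tensor product of the parts of the `h ^ 1` of the constant curves and of the `χ`-part of the
`h ^ 1` of the curve with the function field `L'`. The motive `M` over `k` is of finite dimension in the
sense of Kimura, so some power of the characteristic polynomial `P` of its Frobenius annihilates the
Frobenius, the Frobenius is the multiplication by `(#k) ^ m` on `CH ^ m (M)`, and `P` is `Lfun` up to
factors that do not vanish at `(#k) ^ (-m)`; hence `CH ^ m (M) = 0`. If all sections are constant and
`B = 1`, the condition on `q` is only `3 R ^ 2 + 6 R + 8 ≤ q`, the genus of the curves is not bounded by it.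
For `m = 1` the theorem is about the conjecture of Birch and Swinnerton-Dyer. -/
theorem result (k : Type) [Field k] [Finite k] (p : ℕ) [Fact p.Prime] [CharP k p] (a s q : ℕ)
    (ha : 0 < a) (hs : 0 < s) (hq : q = p ^ a) (hk : Nat.card k = q ^ s) (m : ℕ) (hm : 0 < m)
    (S : Family k (2 * m - 1)) (d : ℕ) (hS : S.Good p q m d) (R : ℕ) (hR : R = ∏ j, S.rank j)
    (f : ℕ) (hf : S.coef.natDegree +
      d * ∑ j : Fin (2 * m - 1), (if j.val < m then 1 else S.rank j - 1) * S.degX j ≤
        f + (S.collision m).natDegree)
    (hr : R * f + 3 * R ^ 2 + 6 * R + 8 ≤ q) (e : ℕ) (he : e ∣ q - 1) (M ρ N : ℕ)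
    (hM : 4 * R ^ 2 + 8 ≤ M) (hρ : R < ρ) (hρf : ρ + f ≤ q - 1) (hN : N + 1 = (q - 1) * M + ρ) :
    (twists k N).Finite ∧
      q * (S.vanishingTwists p q m e N).ncard ≤ 2 * R * e * (twists k N).ncard := by
  have hFt : Fintype k := Fintype.ofFinite k
  have hodd : Odd (2 * m - 1) := ⟨m - 1, by omega⟩
  have hmq : ∀ j i, S.mult j i < q - 1 := fun j i =>
    (Finset.single_le_sum (f := S.mult j) (fun _ _ => Nat.zero_le _) (Finset.mem_univ i)).trans_lt
      (hS.degX_lt j)
  have h7 := Pool.Agent.Y709.Ten.countN (k := k) (p := p) hq ha hs
    (by rw [← Nat.card_eq_fintype_card, hk]) hodd (fun j => decide ((j : ℕ) < m)) S.root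
    hS.root_inj d hS.root_deg S.mult hS.mult_pos hS.degX_char hS.degX_lt S.coef hS.coef_ne
    (by rw [← collision_eq]; exact hS.collision_dvd) f ρ M N e R he hR
    (by
      rw [← collision_eq]
      refine le_trans (le_of_eq ?_) hf
      congr 2
      refine Finset.sum_congr rfl fun j _ => ?_
      congr 1
      by_cases hj : (j : ℕ) < m
      · rw [if_pos hj, if_pos (decide_eq_true hj)]
      · rw [if_neg hj, if_neg (by simpa using hj)]) hr hρ hρf hM hN
  rw [numP_eq hm] at h7
  have hfin := Pool.Agent.Y709.finite_natDegree_le (k := k) N
  refine ⟨hfin, ?_⟩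
  have h8 : (twists k N).ncard = Nat.card k ^ (N + 1) := Pool.Agent.Y709.ncard_natDegree_le N
  rw [h8]
  refine le_trans (Nat.mul_le_mul_left q (Set.ncard_le_ncard ?_
    (hfin.subset fun D hD => hD.1))) h7
  rintro D ⟨hD, G, O, i1, i2, i3, i4, i5, hL, χ, hχ, ζ, hζ, H, hH⟩
  have i6 := hL.galois
  have i7 : FaithfulSMul k[X] O := (faithfulSMul_iff_algebraMap_injective _ _).2 hL.injective
  refine ⟨hD, G, O, i1, i2, i3, i4, i5, i6, i7, hL.pgroup, ?_, χ, hχ, ζ, hζ, H, ?_⟩
  · intro 𝔪 h𝔪
    apply hL.unramified
    intro h0
    exact h𝔪 ((Pool.Agent.Y709.Lay.vO_eq_zero k).2 h0)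
  · rw [← Lfun_eq G S m χ hχ hS.mult_pos hmq, hH, Nat.cast_pow]

end Pool.Agent.Results.MP_0b9e0b_ag.TwistedProducts
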